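import Pool.Agent.Helper32.Oval.PlacesD
import Pool.Agent.Helper32.Oval.Defs

/-!
From a real polynomial `P(x, y)` with nonsingular projective closure to the polynomial
`p(z, w) = P((z + w) / 2, (z - w) / (2 i))` and its smooth charts.
-/

open Polynomial ComplexConjugate

namespace Pool.Agent.Helper53.Oval

open Pool.Agent.Helper32.Oval

/-- `G` is homogeneous of degree `d` and defines a nonsingular projective curve. -/
structure NS (d : ℕ) (G : MvPolynomial (Fin 3) ℂ) : Prop where
  hom : G.IsHomogeneous d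
  ns : ∀ v : Fin 3 → ℂ, v ≠ 0 → MvPolynomial.eval v G = 0 →
    ∃ i, MvPolynomial.eval v (MvPolynomial.pderiv i G) ≠ 0

/-! ### The affine chart -/

/-- The affine chart `G(z, w, 1)`. -/
noncomputable def aff (G : MvPolynomial (Fin 3) ℂ) : ℂ[X][X] :=
  ∑ s ∈ G.support, monomial (s 1) (monomial (s 0) (G.coeff s))

theorem aff_eq (G : MvPolynomial (Fin 3) ℂ) :
    aff G = MvPolynomial.aeval ![(C X : ℂ[X][X]), X, 1] G := by
  rw [MvPolynomial.aeval_def, MvPolynomial.eval₂_eq', aff]
  refine Finset.sum_congr rfl fun s _ => ?_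
  simp only [Fin.prod_univ_three, Matrix.cons_val_zero, Matrix.cons_val_one, Matrix.cons_val,
    one_pow, mul_one]
  rw [← mul_assoc, ← C_mul_X_pow_eq_monomial, ← C_mul_X_pow_eq_monomial, map_mul, map_pow]
  rfl

theorem aff_add (G H : MvPolynomial (Fin 3) ℂ) : aff (G + H) = aff G + aff H := by
  simp only [aff_eq, map_add]

theorem aff_monomial (s : Fin 3 →₀ ℕ) (c : ℂ) :
    aff (MvPolynomial.monomial s c) = monomial (s 1) (monomial (s 0) c) := by
  rw [aff_eq, MvPolynomial.aeval_monomial, Finsupp.prod_fintype _ _ (fun i => pow_zero _)]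
  simp only [Fin.prod_univ_three, Matrix.cons_val_zero, Matrix.cons_val_one, Matrix.cons_val,
    one_pow, mul_one]
  rw [← mul_assoc, ← C_mul_X_pow_eq_monomial, ← C_mul_X_pow_eq_monomial, map_mul, map_pow]
  rfl

theorem evalEval_aff (G : MvPolynomial (Fin 3) ℂ) (b c : ℂ) :
    (aff G).evalEval b c = MvPolynomial.eval ![b, c, 1] G := by
  rw [aff_eq]
  induction G using MvPolynomial.induction_on with
  | C a => simp
  | add p q hp hq => rw [map_add, map_add, evalEval_add, hp, hq]
  | mul_X p i hp =>
    rw [map_mul, map_mul, evalEval_mul, hp, MvPolynomial.aeval_X, MvPolynomial.eval_X]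
    congr 1
    fin_cases i
    · change evalEval b c (C X) = b
      rw [evalEval_C, eval_X]
    · simp
    · simp

theorem derivative_aff (G : MvPolynomial (Fin 3) ℂ) :
    (aff G).derivative = aff (MvPolynomial.pderiv 1 G) := by
  induction G using MvPolynomial.induction_on' with
  | add p q hp hq => rw [aff_add, derivative_add, hp, hq, map_add, aff_add]
  | monomial s c =>
    rw [MvPolynomial.pderiv_monomial, aff_monomial, aff_monomial, derivative_monomial]
    simp only [Finsupp.coe_tsub, Pi.sub_apply, Finsupp.single_eq_same]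
    rw [Finsupp.single_eq_of_ne (by decide), Nat.sub_zero]
    congr 1
    ext i
    simp [coeff_monomial]

theorem dX_add (p q : ℂ[X][X]) : dX (p + q) = dX p + dX q := by
  ext1 n
  simp only [coeff_dX, coeff_add, derivative_add]

theorem dX_monomial (m k : ℕ) (c : ℂ) :
    dX (monomial m (monomial k c)) = monomial m (monomial (k - 1) (c * k)) := by
  ext1 n
  rw [coeff_dX, coeff_monomial, coeff_monomial]
  split_ifs
  · rw [derivative_monomial]
  · rw [derivative_zero]

theorem dX_aff (G : MvPolynomial (Fin 3) ℂ) :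
    dX (aff G) = aff (MvPolynomial.pderiv 0 G) := by
  induction G using MvPolynomial.induction_on' with
  | add p q hp hq => rw [aff_add, dX_add, hp, hq, map_add, aff_add]
  | monomial s c =>
    rw [MvPolynomial.pderiv_monomial, aff_monomial, aff_monomial, dX_monomial]
    simp only [Finsupp.coe_tsub, Pi.sub_apply, Finsupp.single_eq_same]
    rw [Finsupp.single_eq_of_ne (by decide), Nat.sub_zero]

/-- The exponent `(k, m, l)`. -/
noncomputable def expo (k m l : ℕ) : Fin 3 →₀ ℕ := Finsupp.equivFunOnFinite.symm ![k, m, l]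

theorem expo_zero (k m l : ℕ) : expo k m l 0 = k := rfl
theorem expo_one (k m l : ℕ) : expo k m l 1 = m := rfl
theorem expo_two (k m l : ℕ) : expo k m l 2 = l := rfl

theorem expo_ext {k m l : ℕ} {s : Fin 3 →₀ ℕ} (h0 : s 0 = k) (h1 : s 1 = m) (h2 : s 2 = l) :
    s = expo k m l := by
  ext i
  fin_cases i
  · exact h0
  · exact h1
  · exact h2

theorem degree_eq (s : Fin 3 →₀ ℕ) : s.degree = s 0 + s 1 + s 2 := by
  rw [Finsupp.degree_eq_sum, Fin.sum_univ_three]

theorem sum_of_mem {d : ℕ} {G : MvPolynomial (Fin 3) ℂ} (hG : G.IsHomogeneous d)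
    {s : Fin 3 →₀ ℕ} (hs : s ∈ G.support) : s 0 + s 1 + s 2 = d := by
  rw [← degree_eq]
  by_contra h
  exact (MvPolynomial.mem_support_iff.1 hs) (hG.coeff_eq_zero h)

theorem coeff_coeff_aff {d : ℕ} {G : MvPolynomial (Fin 3) ℂ} (hG : G.IsHomogeneous d)
    {k m l : ℕ} (h : k + m + l = d) : ((aff G).coeff m).coeff k = G.coeff (expo k m l) := by
  rw [aff, finsetSum_coeff, finsetSum_coeff, Finset.sum_eq_single (expo k m l)]
  · rw [coeff_monomial, expo_one, if_pos rfl, coeff_monomial, expo_zero, if_pos rfl]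
  · intro s hs hne
    rw [coeff_monomial]
    split_ifs with h1
    · rw [coeff_monomial, if_neg]
      intro h0
      have h2 := sum_of_mem hG hs
      exact hne (expo_ext h0 h1 (by omega))
    · rw [coeff_zero]
  · intro hs
    rw [MvPolynomial.notMem_support_iff.1 hs]
    simp

theorem coeff_coeff_aff_eq_zero {d : ℕ} {G : MvPolynomial (Fin 3) ℂ} (hG : G.IsHomogeneous d)
    {k m : ℕ} (h : d < k + m) : ((aff G).coeff m).coeff k = 0 := by
  rw [aff, finsetSum_coeff, finsetSum_coeff]
  refine Finset.sum_eq_zero fun s hs => ?_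
  have h2 := sum_of_mem hG hs
  rw [coeff_monomial]
  split_ifs with h1
  · rw [coeff_monomial, if_neg (by omega)]
  · rw [coeff_zero]

theorem deg_aff {d : ℕ} {G : MvPolynomial (Fin 3) ℂ} (hG : G.IsHomogeneous d) (m : ℕ)
    (hm : (aff G).coeff m ≠ 0) : ((aff G).coeff m).natDegree + m ≤ d := by
  by_contra h
  have h1 := leadingCoeff_ne_zero.2 hm
  rw [leadingCoeff, coeff_coeff_aff_eq_zero hG (by omega)] at h1
  exact h1 rfl

theorem coeff_aff_eq_zero {d : ℕ} {G : MvPolynomial (Fin 3) ℂ} (hG : G.IsHomogeneous d) {m : ℕ}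
    (hm : d < m) : (aff G).coeff m = 0 := by
  by_contra h
  have := deg_aff hG m h
  omega

/-- The value of a homogeneous polynomial at the point at infinity of the vertical lines. -/
theorem eval_vert {d : ℕ} {G : MvPolynomial (Fin 3) ℂ} (hG : G.IsHomogeneous d) :
    MvPolynomial.eval ![0, 1, 0] G = G.coeff (expo 0 d 0) := by
  rw [MvPolynomial.eval_eq', Finset.sum_eq_single (expo 0 d 0)]
  · simp [Fin.prod_univ_three, expo_zero, expo_two]
  · intro s hs hne
    have h2 := sum_of_mem hG hs
    simp only [Fin.prod_univ_three, Matrix.cons_val_zero, Matrix.cons_val_one, Matrix.cons_val,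
      one_pow, mul_one]
    by_cases h0 : s 0 = 0
    · by_cases h3 : s 2 = 0
      · exact absurd (expo_ext h0 (by omega) h3) hne
      · rw [zero_pow h3, mul_zero, mul_zero]
    · rw [zero_pow h0, zero_mul, mul_zero]
  · intro hs
    rw [MvPolynomial.notMem_support_iff.1 hs, zero_mul]

theorem expo_add_single_zero (k m l : ℕ) :
    expo k m l + Finsupp.single 0 1 = expo (k + 1) m l := by
  apply expo_ext <;> simp [expo_zero, expo_one, expo_two]

theorem expo_add_single_one (k m l : ℕ) :
    expo k m l + Finsupp.single 1 1 = expo k (m + 1) l := by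
  apply expo_ext <;> simp [expo_zero, expo_one, expo_two]

theorem expo_add_single_two (k m l : ℕ) :
    expo k m l + Finsupp.single 2 1 = expo k m (l + 1) := by
  apply expo_ext <;> simp [expo_zero, expo_one, expo_two]

/-- Nonsingularity at the point at infinity of the vertical lines. -/
theorem NS.vert {d : ℕ} {G : MvPolynomial (Fin 3) ℂ} (hG : NS (d + 1) G) :
    G.coeff (expo 0 (d + 1) 0) ≠ 0 ∨ G.coeff (expo 1 d 0) ≠ 0 ∨ G.coeff (expo 0 d 1) ≠ 0 := by
  by_contra hcon
  push Not at hcon
  obtain ⟨h1, h2, h3⟩ := hcon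
  obtain ⟨i, hi⟩ := hG.ns ![0, 1, 0] (fun h => by simpa using congrFun h 1)
    (by rw [eval_vert hG.hom, h1])
  have hh := hG.hom.pderiv (i := i)
  rw [Nat.add_sub_cancel] at hh
  rw [eval_vert hh, MvPolynomial.coeff_pderiv] at hi
  apply hi
  fin_cases i
  · erw [expo_add_single_zero, h2, zero_mul]
  · erw [expo_add_single_one, h1, zero_mul]
  · erw [expo_add_single_two, h3, zero_mul]

theorem coeff_top_aff {d : ℕ} {G : MvPolynomial (Fin 3) ℂ} (hG : G.IsHomogeneous (d + 1)) :
    (aff G).coeff (d + 1) = C (G.coeff (expo 0 (d + 1) 0)) := by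
  ext k
  rcases k with _ | k
  · rw [coeff_coeff_aff hG (by omega : 0 + (d + 1) + 0 = d + 1), coeff_C_zero]
  · rw [coeff_coeff_aff_eq_zero hG (by omega), coeff_C_succ]

theorem coeff_top_aff' {d : ℕ} {G : MvPolynomial (Fin 3) ℂ} (hG : G.IsHomogeneous (d + 1)) :
    (aff G).coeff d = C (G.coeff (expo 1 d 0)) * X + C (G.coeff (expo 0 d 1)) := by
  ext k
  rcases k with _ | _ | k
  · rw [coeff_coeff_aff hG (by omega : 0 + d + 1 = d + 1)]
    simp
  · rw [coeff_coeff_aff hG (by omega : 0 + 1 + d + 0 = d + 1)]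
    simp
  · rw [coeff_coeff_aff_eq_zero hG (by omega)]
    simp

theorem NS.le_natDegree {d : ℕ} {G : MvPolynomial (Fin 3) ℂ} (hG : NS (d + 1) G) :
    d ≤ (aff G).natDegree := by
  rcases hG.vert with h | h | h
  · refine (Nat.le_succ d).trans (le_natDegree_of_ne_zero (n := d + 1) ?_)
    rw [coeff_top_aff hG.hom]
    exact C_ne_zero.2 h
  · refine le_natDegree_of_ne_zero fun h0 => h ?_
    rw [coeff_top_aff' hG.hom] at h0
    simpa using congrArg (fun f => Polynomial.coeff f 1) h0
  · refine le_natDegree_of_ne_zero fun h0 => h ?_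
    rw [coeff_top_aff' hG.hom] at h0
    simpa using congrArg (fun f => Polynomial.coeff f 0) h0

theorem euler {d : ℕ} {G : MvPolynomial (Fin 3) ℂ} (hG : G.IsHomogeneous d) (v : Fin 3 → ℂ) :
    v 0 * MvPolynomial.eval v (MvPolynomial.pderiv 0 G) +
      v 1 * MvPolynomial.eval v (MvPolynomial.pderiv 1 G) +
      v 2 * MvPolynomial.eval v (MvPolynomial.pderiv 2 G) = d * MvPolynomial.eval v G := by
  have h := congrArg (MvPolynomial.eval v) hG.sum_X_mul_pderiv
  rw [Fin.sum_univ_three] at h
  simpa using h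

theorem NS.smoothChart {d : ℕ} {G : MvPolynomial (Fin 3) ℂ} (hG : NS (d + 1) G) :
    SmoothChart (d + 1) (aff G) where
  deg := deg_aff hG.hom
  aff := by
    intro b c h
    rw [evalEval_aff] at h
    rw [derivative_aff, evalEval_aff, dX_aff, evalEval_aff]
    by_contra hcon
    push Not at hcon
    obtain ⟨h1, h0⟩ := hcon
    have he := euler hG.hom ![b, c, 1]
    rw [h1, h0, h] at he
    simp only [mul_zero, zero_add] at he
    have h2 : MvPolynomial.eval ![b, c, 1] (MvPolynomial.pderiv 2 G) = 0 := by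
      simpa using he
    obtain ⟨i, hi⟩ := hG.ns ![b, c, 1] (fun h => by simpa using congrFun h 2) h
    apply hi
    fin_cases i
    · exact h0
    · exact h1
    · exact h2
  vert := by
    intro b hb
    have htop := coeff_top_aff hG.hom
    have hle : (aff G).natDegree ≤ d + 1 := by
      rw [natDegree_le_iff_coeff_eq_zero]
      intro N hN
      exact coeff_aff_eq_zero hG.hom hN
    have hge := hG.le_natDegree
    by_cases h1 : G.coeff (expo 0 (d + 1) 0) = 0
    · rw [h1, C_0] at htop
      have hne : aff G ≠ 0 := by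
        intro h0
        rcases hG.vert with h | h | h
        · exact h h1
        · have := coeff_coeff_aff hG.hom (by omega : 1 + d + 0 = d + 1)
          rw [h0] at this
          exact h (by simpa using this.symm)
        · have := coeff_coeff_aff hG.hom (by omega : 0 + d + 1 = d + 1)
          rw [h0] at this
          exact h (by simpa using this.symm)
      have hdeg : (aff G).natDegree = d := by
        rcases Nat.lt_or_ge (aff G).natDegree (d + 1) with h2 | h2
        · omega
        · exfalso
          have h3 : (aff G).natDegree = d + 1 := le_antisymm hle h2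
          have h4 := leadingCoeff_ne_zero.2 hne
          rw [leadingCoeff, h3, htop] at h4
          exact h4 rfl
      refine ⟨by rw [hdeg], ?_⟩
      rw [leadingCoeff, hdeg, coeff_top_aff' hG.hom] at hb ⊢
      simp only [eval_add, eval_mul, eval_C, eval_X] at hb
      simp only [derivative_add, derivative_mul, derivative_C, zero_mul, derivative_X, mul_one,
        zero_add, add_zero, eval_C]
      intro h2
      rw [h2, zero_mul, zero_add] at hb
      rcases hG.vert with h | h | h
      · exact h h1
      · exact h h2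
      · exact h hb
    · exfalso
      have hdeg : (aff G).natDegree = d + 1 := by
        refine le_antisymm hle (le_natDegree_of_ne_zero ?_)
        rw [htop]
        exact C_ne_zero.2 h1
      rw [leadingCoeff, hdeg, htop, eval_C] at hb
      exact h1 hb
  ne_zero := by
    intro h0
    rcases hG.vert with h | h | h
    · have := coeff_coeff_aff hG.hom (by omega : 0 + (d + 1) + 0 = d + 1)
      rw [h0] at this
      exact h (by simpa using this.symm)
    · have := coeff_coeff_aff hG.hom (by omega : 1 + d + 0 = d + 1)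
      rw [h0] at this
      exact h (by simpa using this.symm)
    · have := coeff_coeff_aff hG.hom (by omega : 0 + d + 1 = d + 1)
      rw [h0] at this
      exact h (by simpa using this.symm)

/-! ### Linear changes of coordinates -/

theorem eval_aeval' (L : Fin 3 → MvPolynomial (Fin 3) ℂ) (G : MvPolynomial (Fin 3) ℂ)
    (v : Fin 3 → ℂ) : MvPolynomial.eval v (MvPolynomial.aeval L G) =
      MvPolynomial.eval (fun k => MvPolynomial.eval v (L k)) G := by
  induction G using MvPolynomial.induction_on with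
  | C a => simp
  | add p q hp hq => rw [map_add, map_add, map_add, hp, hq]
  | mul_X p i hp => rw [map_mul, map_mul, map_mul, hp, MvPolynomial.aeval_X, MvPolynomial.eval_X]

/-- The chain rule. -/
theorem eval_pderiv_aeval (L : Fin 3 → MvPolynomial (Fin 3) ℂ) (G : MvPolynomial (Fin 3) ℂ)
    (v : Fin 3 → ℂ) (i : Fin 3) :
    MvPolynomial.eval v (MvPolynomial.pderiv i (MvPolynomial.aeval L G)) =
      ∑ j, MvPolynomial.eval (fun k => MvPolynomial.eval v (L k)) (MvPolynomial.pderiv j G) *
        MvPolynomial.eval v (MvPolynomial.pderiv i (L j)) := by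
  induction G using MvPolynomial.induction_on with
  | C a => simp
  | add p q hp hq =>
    simp only [map_add, add_mul, Finset.sum_add_distrib, hp, hq]
  | mul_X p n hp =>
    rw [map_mul, MvPolynomial.aeval_X, MvPolynomial.pderiv_mul, map_add, map_mul, map_mul, hp,
      eval_aeval']
    simp only [MvPolynomial.pderiv_mul, map_add, map_mul, MvPolynomial.eval_X,
      MvPolynomial.pderiv_X, add_mul, Finset.sum_add_distrib, Finset.sum_mul]
    congr 1
    · exact Finset.sum_congr rfl fun j _ => by ring
    · rw [Finset.sum_eq_single n]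
      · simp
      · intro j _ hj
        rw [Pi.single_eq_of_ne' hj]
        simp
      · simp

theorem NS.aeval {d : ℕ} {G : MvPolynomial (Fin 3) ℂ} (hG : NS d G)
    {L : Fin 3 → MvPolynomial (Fin 3) ℂ} (hL : ∀ j, (L j).IsHomogeneous 1)
    (h1 : ∀ v, (fun k => MvPolynomial.eval v (L k)) = 0 → v = 0)
    (h2 : ∀ (v : Fin 3 → ℂ) (g : Fin 3 → ℂ),
      (∀ i, ∑ j, g j * MvPolynomial.eval v (MvPolynomial.pderiv i (L j)) = 0) → g = 0) :
    NS d (MvPolynomial.aeval L G) where
  hom := by
    have := hG.hom.aeval L hL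
    rwa [one_mul] at this
  ns := by
    intro v hv hz
    by_contra hcon
    push Not at hcon
    rw [eval_aeval'] at hz
    obtain ⟨i, hi⟩ := hG.ns _ (fun h => hv (h1 v h)) hz
    have h3 := h2 v (fun j => MvPolynomial.eval (fun k => MvPolynomial.eval v (L k))
      (MvPolynomial.pderiv j G)) (fun i => by rw [← eval_pderiv_aeval]; exact hcon i)
    exact hi (congrFun h3 i)

/-- The interchange of the first and third coordinates. -/
noncomputable def Lswap : Fin 3 → MvPolynomial (Fin 3) ℂ :=
  ![MvPolynomial.X 2, MvPolynomial.X 1, MvPolynomial.X 0]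

theorem NS.swap {d : ℕ} {G : MvPolynomial (Fin 3) ℂ} (hG : NS d G) :
    NS d (MvPolynomial.aeval Lswap G) := by
  refine hG.aeval ?_ ?_ ?_
  · intro j
    fin_cases j <;> exact MvPolynomial.isHomogeneous_X _ _
  · intro v hv
    have h0 := congrFun hv 0
    have h1 := congrFun hv 1
    have h2 := congrFun hv 2
    simp [Lswap] at h0 h1 h2
    ext i
    fin_cases i <;> simp [h0, h1, h2]
  · intro v g hg
    have h0 := hg 0
    have h1 := hg 1
    have h2 := hg 2
    simp [Lswap, Fin.sum_univ_three, MvPolynomial.pderiv_X] at h0 h1 h2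
    ext i
    fin_cases i <;> simp [h0, h1, h2]

theorem flip_add (d : ℕ) (p q : ℂ[X][X]) : flip d (p + q) = flip d p + flip d q := by
  simp only [Helper32.Oval.flip, coeff_add, reflect_add, map_add, Finset.sum_add_distrib]

theorem flip_sum {ι : Type*} (d : ℕ) (s : Finset ι) (f : ι → ℂ[X][X]) :
    flip d (∑ i ∈ s, f i) = ∑ i ∈ s, flip d (f i) := by
  classical
  induction s using Finset.induction_on with
  | empty => simp [Helper32.Oval.flip]
  | insert a s ha ih => rw [Finset.sum_insert ha, Finset.sum_insert ha, flip_add, ih]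

theorem flip_monomial {d m k : ℕ} (h : k + m ≤ d) (c : ℂ) :
    flip d (monomial m (monomial k c)) = monomial m (monomial (d - m - k) c) := by
  rw [Helper32.Oval.flip, Finset.sum_eq_single m]
  · rw [coeff_monomial, if_pos rfl, ← C_mul_X_pow_eq_monomial (n := k), reflect_C_mul_X_pow,
      revAt_le (by omega), C_mul_X_pow_eq_monomial]
  · intro b _ hb
    rw [coeff_monomial, if_neg hb.symm, reflect_zero, map_zero]
  · intro hm
    exact absurd (Finset.mem_range.2 (by omega)) hm

theorem aff_swap (G : MvPolynomial (Fin 3) ℂ) :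
    aff (MvPolynomial.aeval Lswap G) = MvPolynomial.aeval ![(1 : ℂ[X][X]), X, C X] G := by
  rw [aff_eq]
  induction G using MvPolynomial.induction_on with
  | C a => simp
  | add p q hp hq => rw [map_add, map_add, map_add, hp, hq]
  | mul_X p n hp =>
    rw [map_mul, map_mul, map_mul, hp, MvPolynomial.aeval_X, MvPolynomial.aeval_X]
    congr 1
    fin_cases n
    · change MvPolynomial.aeval _ (MvPolynomial.X 2) = _
      rw [MvPolynomial.aeval_X]
      rfl
    · change MvPolynomial.aeval _ (MvPolynomial.X 1) = _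
      rw [MvPolynomial.aeval_X]
      rfl
    · change MvPolynomial.aeval _ (MvPolynomial.X 0) = _
      rw [MvPolynomial.aeval_X]
      rfl

theorem flip_aff {d : ℕ} {G : MvPolynomial (Fin 3) ℂ} (hG : G.IsHomogeneous d) :
    flip d (aff G) = aff (MvPolynomial.aeval Lswap G) := by
  rw [aff_swap, MvPolynomial.aeval_def, MvPolynomial.eval₂_eq', aff, flip_sum]
  refine Finset.sum_congr rfl fun s hs => ?_
  have h2 := sum_of_mem hG hs
  rw [flip_monomial (by omega)]
  simp only [Fin.prod_univ_three, Matrix.cons_val_zero, Matrix.cons_val_one, Matrix.cons_val,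
    one_pow, one_mul]
  rw [← C_mul_X_pow_eq_monomial, ← C_mul_X_pow_eq_monomial, map_mul, map_pow,
    (by omega : d - s 1 - s 0 = s 2)]
  rw [mul_comm (X ^ s 1 : ℂ[X][X]), ← mul_assoc]
  rfl

/-! ### The complex coordinates -/

/-- The coordinates `x = (z + w) / 2`, `y = (z - w) / (2 i)`. -/
noncomputable def Lcx : Fin 3 → MvPolynomial (Fin 3) ℂ :=
  ![MvPolynomial.C (1 / 2) * (MvPolynomial.X 0 + MvPolynomial.X 1),
    MvPolynomial.C (1 / (2 * Complex.I)) * (MvPolynomial.X 0 - MvPolynomial.X 1),
    MvPolynomial.X 2]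

theorem NS.cx {d : ℕ} {G : MvPolynomial (Fin 3) ℂ} (hG : NS d G) :
    NS d (MvPolynomial.aeval Lcx G) := by
  have hI : (2 * Complex.I) ≠ 0 := mul_ne_zero two_ne_zero Complex.I_ne_zero
  refine hG.aeval ?_ ?_ ?_
  · intro j
    fin_cases j
    · exact ((MvPolynomial.isHomogeneous_X _ _).add (MvPolynomial.isHomogeneous_X _ _)).C_mul _
    · exact ((MvPolynomial.isHomogeneous_X _ _).sub (MvPolynomial.isHomogeneous_X _ _)).C_mul _
    · exact MvPolynomial.isHomogeneous_X _ _
  · intro v hv
    have h0 := congrFun hv 0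
    have h1 := congrFun hv 1
    have h2 := congrFun hv 2
    simp [Lcx] at h0 h1 h2
    ext i
    fin_cases i
    · change v 0 = 0
      linear_combination (h0 + h1) / 2
    · change v 1 = 0
      linear_combination (h0 - h1) / 2
    · exact h2
  · intro v g hg
    have h0 := hg 0
    have h1 := hg 1
    have h2 := hg 2
    simp [Lcx, Fin.sum_univ_three, MvPolynomial.pderiv_X] at h0 h1 h2
    ext i
    fin_cases i
    · change g 0 = 0
      linear_combination h0 + h1
    · change g 1 = 0
      have h3 : g 1 * Complex.I = 0 := by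
        linear_combination h1 - h0
      exact (mul_eq_zero.1 h3).resolve_right Complex.I_ne_zero
    · exact h2

/-- The real homogenisation. -/
noncomputable def homogR (P : MvPolynomial (Fin 2) ℝ) : MvPolynomial (Fin 3) ℝ :=
  ∑ m ∈ P.support, MvPolynomial.C (P.coeff m) * MvPolynomial.X 0 ^ m 0 *
    MvPolynomial.X 1 ^ m 1 * MvPolynomial.X 2 ^ (P.totalDegree - (m 0 + m 1))

theorem map_homogR (P : MvPolynomial (Fin 2) ℝ) :
    MvPolynomial.map Complex.ofRealHom (homogR P) = homog P := by
  rw [homogR, homog, map_sum]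
  refine Finset.sum_congr rfl fun m _ => ?_
  simp

theorem homog_isHomogeneous (P : MvPolynomial (Fin 2) ℝ) :
    (homog P).IsHomogeneous P.totalDegree := by
  rw [homog]
  refine MvPolynomial.IsHomogeneous.sum _ _ _ fun m hm => ?_
  have h1 : m 0 + m 1 ≤ P.totalDegree := by
    have := MvPolynomial.le_totalDegree hm
    rw [Finsupp.sum_fintype _ _ (fun _ => rfl), Fin.sum_univ_two] at this
    exact this
  have h2 := (((MvPolynomial.isHomogeneous_C (Fin 3) ((P.coeff m : ℝ) : ℂ)).mul
    ((MvPolynomial.isHomogeneous_X ℂ (0 : Fin 3)).pow (m 0))).mul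
    ((MvPolynomial.isHomogeneous_X ℂ (1 : Fin 3)).pow (m 1))).mul
    ((MvPolynomial.isHomogeneous_X ℂ (2 : Fin 3)).pow (P.totalDegree - (m 0 + m 1)))
  have h3 : 0 + 1 * m 0 + 1 * m 1 + 1 * (P.totalDegree - (m 0 + m 1)) = P.totalDegree := by
    omega
  rw [h3] at h2
  exact h2

theorem eval_homog (P : MvPolynomial (Fin 2) ℝ) (x y : ℝ) :
    MvPolynomial.eval ![(x : ℂ), y, 1] (homog P) = ((MvPolynomial.eval ![x, y] P : ℝ) : ℂ) := by
  rw [homog, map_sum, MvPolynomial.eval_eq', Complex.ofReal_sum]
  refine Finset.sum_congr rfl fun m _ => ?_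
  simp [Fin.prod_univ_two, mul_assoc]

/-- The partial derivatives at real points are real. -/
theorem eval_pderiv_homog (P : MvPolynomial (Fin 2) ℝ) (x y : ℝ) (i : Fin 3) :
    ∃ r : ℝ, MvPolynomial.eval ![(x : ℂ), y, 1] (MvPolynomial.pderiv i (homog P)) = r := by
  refine ⟨MvPolynomial.eval ![x, y, 1] (MvPolynomial.pderiv i (homogR P)), ?_⟩
  rw [← map_homogR, MvPolynomial.pderiv_map]
  have h1 : ![(x : ℂ), y, 1] = Complex.ofRealHom ∘ ![x, y, 1] := by
    ext j
    fin_cases j <;> simp
  change _ = Complex.ofRealHom _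
  rw [h1, MvPolynomial.eval_map, ← MvPolynomial.eval₂_id, MvPolynomial.eval₂_comp_left]
  rfl

theorem nonsing_cx (P : MvPolynomial (Fin 2) ℝ) (hns : NonsingularClosure P) :
    NS P.totalDegree (MvPolynomial.aeval Lcx (homog P)) :=
  NS.cx ⟨homog_isHomogeneous P, hns⟩

theorem eval_Lcx (z : ℂ) :
    (fun k => MvPolynomial.eval ![z, conj z, 1] (Lcx k)) = ![(z.re : ℂ), z.im, 1] := by
  have hI : (2 * Complex.I) ≠ 0 := mul_ne_zero two_ne_zero Complex.I_ne_zero
  ext j
  fin_cases j
  · change MvPolynomial.eval ![z, conj z, 1] (MvPolynomial.C (1 / 2) *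
      (MvPolynomial.X 0 + MvPolynomial.X 1)) = (z.re : ℂ)
    rw [Complex.re_eq_add_conj]
    simp
    ring
  · change MvPolynomial.eval ![z, conj z, 1] (MvPolynomial.C (1 / (2 * Complex.I)) *
      (MvPolynomial.X 0 - MvPolynomial.X 1)) = (z.im : ℂ)
    rw [Complex.im_eq_sub_conj]
    simp only [map_mul, MvPolynomial.eval_C, map_sub, MvPolynomial.eval_X]
    change 1 / (2 * Complex.I) * (z - conj z) = _
    ring
  · simp [Lcx]

theorem exists_curve (P : MvPolynomial (Fin 2) ℝ) (hd : 3 ≤ P.totalDegree)
    (hns : NonsingularClosure P) :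
    ∃ p : Polynomial (Polynomial ℂ),
      (∀ z : ℂ, p.evalEval z (conj z) = ((MvPolynomial.eval ![z.re, z.im] P : ℝ) : ℂ)) ∧
      (∀ z : ℂ, p.evalEval z (conj z) = 0 → p.derivative.evalEval z (conj z) ≠ 0) ∧
      SmoothChart P.totalDegree p ∧
      SmoothChart P.totalDegree (Helper32.Oval.flip P.totalDegree p) ∧
      P.totalDegree ≤ p.natDegree + 1 := by
  have hNS := nonsing_cx P hns
  obtain ⟨d, hd'⟩ : ∃ d, P.totalDegree = d + 1 := ⟨P.totalDegree - 1, by omega⟩
  rw [hd'] at hNS
  have heval : ∀ z : ℂ, (aff (MvPolynomial.aeval Lcx (homog P))).evalEval z (conj z) =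
      ((MvPolynomial.eval ![z.re, z.im] P : ℝ) : ℂ) := by
    intro z
    rw [evalEval_aff, eval_aeval', eval_Lcx, eval_homog]
  refine ⟨aff (MvPolynomial.aeval Lcx (homog P)), heval, ?_, ?_, ?_, ?_⟩
  · intro z hz hw
    have hz' : MvPolynomial.eval ![(z.re : ℂ), z.im, 1] (homog P) = 0 := by
      rw [eval_homog, ← heval, hz]
    rw [derivative_aff, evalEval_aff, eval_pderiv_aeval, eval_Lcx] at hw
    obtain ⟨a, ha⟩ := eval_pderiv_homog P z.re z.im 0
    obtain ⟨b, hb⟩ := eval_pderiv_homog P z.re z.im 1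
    rw [Fin.sum_univ_three, ha, hb] at hw
    simp [Lcx, MvPolynomial.pderiv_X] at hw
    have hre := congrArg Complex.re hw
    have him := congrArg Complex.im hw
    simp at hre him
    have he := euler (homog_isHomogeneous P) ![(z.re : ℂ), z.im, 1]
    rw [hz', ha, hb, hre, him] at he
    simp at he
    obtain ⟨i, hi⟩ := hns ![(z.re : ℂ), z.im, 1] (fun h => by simpa using congrFun h 2) hz'
    apply hi
    fin_cases i
    · exact ha.trans (by rw [hre, Complex.ofReal_zero])
    · exact hb.trans (by rw [him, Complex.ofReal_zero])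
    · exact he
  · rw [hd']
    exact hNS.smoothChart
  · rw [hd', flip_aff hNS.hom]
    exact hNS.swap.smoothChart
  · rw [hd']
    have := hNS.le_natDegree
    omega

end Pool.Agent.Helper53.Oval
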